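import Pool.Agent.XE31.C2.StmA

/-!
Project C2, piece NONS: zeros of a matrix polynomial with different first coordinates.
-/

set_option autoImplicit false

namespace Pool.Agent.H72C2

open Polynomial Pool.Agent.XE31.C2

/-- division by a monic matrix polynomial -/
theorem division {R : Type} [CommRing R] {d g : ℕ} (F : Matrix (Fin d) (Fin d) R[X])
    (hF : Mon F g) : ∀ (m : ℕ) (c : Fin d → R[X]), (∀ i, (c i).degree < (m : WithBot ℕ)) →
      ∃ u w : Fin d → R[X], c = F.mulVec u + w ∧ ∀ i, (w i).degree < (g : WithBot ℕ) := by
  intro m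
  induction m with
  | zero =>
    intro c hc
    refine ⟨0, c, by simp, fun i => (hc i).trans_le ?_⟩
    exact_mod_cast Nat.zero_le g
  | succ m ih =>
    intro c hc
    by_cases hm : m + 1 ≤ g
    · refine ⟨0, c, by simp, fun i => (hc i).trans_le ?_⟩
      exact_mod_cast hm
    · have hgm : g ≤ m := by omega
      set t : Fin d → R[X] := fun j => C ((c j).coeff m) * X ^ (m - g) with ht
      have hdeg : ∀ i, ((c - F.mulVec t) i).degree < (m : WithBot ℕ) := fun i => ?_
      obtain ⟨u, w, h1, h2⟩ := ih (c - F.mulVec t) hdeg
      · refine ⟨u + t, w, ?_, h2⟩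
        rw [Matrix.mulVec_add, add_assoc, add_comm (F.mulVec t) w, ← add_assoc, ← h1,
          sub_add_cancel]
      · have e1 : (c - F.mulVec t) i = (c i - C ((c i).coeff m) * X ^ m) -
            ∑ j, (F i j - if i = j then X ^ g else 0) * t j := by
          have e2 : ∑ j, (F i j - if i = j then X ^ g else 0) * t j =
              F.mulVec t i - X ^ g * t i := by
            rw [Matrix.mulVec, dotProduct]
            simp only [sub_mul, Finset.sum_sub_distrib, ite_mul, zero_mul]
            rw [Finset.sum_ite_eq]
            simp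
          have e3 : X ^ g * t i = C ((c i).coeff m) * X ^ m := by
            rw [ht]
            simp only
            rw [mul_left_comm, ← pow_add, Nat.add_sub_cancel' hgm]
          rw [e2, e3, Pi.sub_apply]
          ring
        rw [e1]
        refine lt_of_le_of_lt (degree_sub_le _ _) (max_lt ?_ ?_)
        · rw [degree_lt_iff_coeff_zero]
          intro n hn
          rw [coeff_sub, coeff_C_mul, coeff_X_pow]
          rcases Nat.lt_or_ge m n with h | h
          · rw [coeff_eq_zero_of_degree_lt, if_neg (by omega), mul_zero, sub_zero]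
            refine (hc i).trans_le ?_
            exact_mod_cast h
          · have : n = m := le_antisymm h hn
            subst this
            rw [if_pos rfl, mul_one, sub_self]
        · rw [degree_lt_iff_coeff_zero]
          intro n hn
          rw [finsetSum_coeff]
          refine Finset.sum_eq_zero fun j _ => ?_
          rw [ht]
          simp only
          have h5 : (F i j - if i = j then X ^ g else 0).coeff (n - (m - g)) = 0 := by
            refine coeff_eq_zero_of_degree_lt ((hF i j).trans_le ?_)
            have : g ≤ n - (m - g) := by omega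
            exact_mod_cast this
          rw [mul_left_comm, coeff_C_mul, coeff_mul_X_pow', if_pos (by omega), h5, mul_zero]

theorem t_nons : St_nons := by
  intro R _ _ d g F hd hF x v hx hv0 hvF
  have hdiv : ∀ k : Fin (g * d), ∃ u w : Fin d → R[X],
      Pi.single (⟨0, hd⟩ : Fin d) (X ^ (k : ℕ)) = F.mulVec u + w ∧
        ∀ i, (w i).degree < (g : WithBot ℕ) := by
    intro k
    refine division F hF ((k : ℕ) + 1) _ fun i => ?_
    by_cases hi : i = ⟨0, hd⟩
    · subst hi
      rw [Pi.single_eq_same, degree_X_pow]
      exact_mod_cast Nat.lt_succ_self _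
    · rw [Pi.single_eq_of_ne hi, degree_zero]
      exact WithBot.bot_lt_coe _
  choose u w hw1 hw2 using hdiv
  have key : ∀ (l k : Fin (g * d)), x l ^ (k : ℕ) =
      ∑ κ : Fin g × Fin d, (x l ^ (κ.1 : ℕ) * v l κ.2) * (w k κ.2).coeff κ.1 := by
    intro l k
    have e1 : ∑ i, v l i * (Pi.single (M := fun _ : Fin d => R[X]) (⟨0, hd⟩ : Fin d)
        (X ^ (k : ℕ)) i).eval (x l) = x l ^ (k : ℕ) := by
      rw [Finset.sum_eq_single (⟨0, hd⟩ : Fin d)]
      · rw [Pi.single_eq_same, hv0, one_mul, eval_pow, eval_X]
      · intro i _ hi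
        rw [Pi.single_eq_of_ne hi, eval_zero, mul_zero]
      · intro h
        exact absurd (Finset.mem_univ _) h
    have e2 : ∑ i, v l i * (F.mulVec (u k) i).eval (x l) = 0 := by
      have : ∀ i, v l i * (F.mulVec (u k) i).eval (x l) =
          ∑ j, (v l i * (F i j).eval (x l)) * (u k j).eval (x l) := by
        intro i
        rw [Matrix.mulVec, dotProduct, eval_finsetSum, Finset.mul_sum]
        exact Finset.sum_congr rfl fun j _ => by rw [eval_mul]; ring
      simp only [this]
      rw [Finset.sum_comm]
      refine Finset.sum_eq_zero fun j _ => ?_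
      rw [← Finset.sum_mul, hvF l j, zero_mul]
    rw [← e1, hw1 k]
    simp only [Pi.add_apply, eval_add, mul_add, Finset.sum_add_distrib]
    rw [e2, zero_add, Fintype.sum_prod_type_right]
    refine Finset.sum_congr rfl fun i _ => ?_
    have hnd : (w k i).natDegree < g := by
      by_cases h0 : w k i = 0
      · rw [h0, natDegree_zero]
        refine Nat.pos_of_ne_zero fun hg => ?_
        have h5 : g * d = 0 := by rw [hg, Nat.zero_mul]
        have := k.2
        omega
      · exact (natDegree_lt_iff_degree_lt h0).2 (hw2 k i)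
    rw [eval_eq_sum_range' (n := g) hnd (x l), Finset.sum_range, Finset.mul_sum]
    exact Finset.sum_congr rfl fun m _ => by ring
  set E : Matrix (Fin (g * d)) (Fin (g * d)) R := Matrix.of fun l k =>
    x l ^ ((finProdFinEquiv.symm k).1 : ℕ) * v l (finProdFinEquiv.symm k).2 with hE
  set Q : Matrix (Fin (g * d)) (Fin (g * d)) R := Matrix.of fun j k =>
    (w k (finProdFinEquiv.symm j).2).coeff (finProdFinEquiv.symm j).1 with hQ
  have hV : Matrix.vandermonde x = E * Q := by
    ext l k
    rw [Matrix.vandermonde_apply, key l k, Matrix.mul_apply]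
    rw [← Equiv.sum_comp finProdFinEquiv]
    refine Finset.sum_congr rfl fun κ _ => ?_
    rw [hE, hQ]
    simp only [Matrix.of_apply, Equiv.symm_apply_apply]
  have hdet : (Matrix.vandermonde x).det ≠ 0 := Matrix.det_vandermonde_ne_zero_iff.2 hx
  rw [hV, Matrix.det_mul] at hdet
  have hE0 : E.det ≠ 0 := left_ne_zero_of_mul hdet
  intro c hc
  have h1 : (fun k : Fin (g * d) => c (finProdFinEquiv.symm k)) = 0 := by
    refine Matrix.eq_zero_of_mulVec_eq_zero hE0 ?_
    funext l
    rw [Matrix.mulVec, dotProduct, ← Equiv.sum_comp finProdFinEquiv, Pi.zero_apply, ← hc l]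
    refine Finset.sum_congr rfl fun κ _ => ?_
    rw [hE]
    simp only [Matrix.of_apply, Equiv.symm_apply_apply]
    ring
  funext κ
  have h2 := congrFun h1 (finProdFinEquiv κ)
  simpa using h2

end Pool.Agent.H72C2
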