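import Pool.Agent.XE31.C2.StmA

/-!
Project C2, piece SYLE: the block Sylvester determinant is the product of the values at the zeros.
-/

set_option autoImplicit false

namespace Pool.Agent.H72C2

open Polynomial Pool.Agent.XE31.C2

section

variable {R : Type} [CommRing R]

theorem mon_coeff {d g : ℕ} {F : Matrix (Fin d) (Fin d) R[X]} (hF : Mon F g) (i j : Fin d)
    (n : ℕ) (hn : g ≤ n) : (F i j).coeff n = if i = j then (if n = g then 1 else 0) else 0 := by
  have h1 : (F i j - if i = j then X ^ g else 0).coeff n = 0 := by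
    refine coeff_eq_zero_of_degree_lt ((hF i j).trans_le ?_)
    exact_mod_cast hn
  rw [coeff_sub, sub_eq_zero] at h1
  rw [h1]
  by_cases hij : i = j
  · rw [if_pos hij, if_pos hij, coeff_X_pow]
  · rw [if_neg hij, if_neg hij, coeff_zero]

/-- the value of a polynomial of degree less than `g + h` -/
theorem eval_split (P : R[X]) (g h : ℕ) (x : R) (hP : ∀ n, g + h ≤ n → P.coeff n = 0) :
    P.eval x = ∑ i : Fin h, x ^ (g + (i : ℕ)) * P.coeff (g + i) +
      ∑ i : Fin g, x ^ (i : ℕ) * P.coeff i := by
  have h1 : P.eval x = ∑ n ∈ Finset.range (g + h), P.coeff n * x ^ n := by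
    rw [eval_eq_sum, sum_def]
    refine Finset.sum_subset_zero_on_sdiff ?_ ?_ fun _ _ => rfl
    · intro n hn
      rw [Finset.mem_range]
      by_contra hcon
      exact (mem_support_iff.1 hn) (hP n (not_lt.1 hcon))
    · intro n hn
      rw [Finset.mem_sdiff, notMem_support_iff] at hn
      rw [hn.2, zero_mul]
  rw [h1, Finset.sum_range_add, Finset.sum_range, Finset.sum_range, add_comm]
  congr 1
  · exact Finset.sum_congr rfl fun i _ => mul_comm _ _
  · exact Finset.sum_congr rfl fun i _ => mul_comm _ _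

end

theorem t_syle : St_syle := by
  intro R ι _ _ _ d g h F H e hF hH x v y hN hvF hvH
  set A : Matrix (Fin h × Fin d) (Fin h × Fin d) R :=
    Matrix.of fun p q => (F p.2 q.2 * X ^ (q.1 : ℕ)).coeff (g + p.1) with hA
  set B : Matrix (Fin h × Fin d) (Fin g × Fin d) R :=
    Matrix.of fun p q => (H p.2 q.2 * X ^ (q.1 : ℕ)).coeff (g + p.1) with hB
  set C' : Matrix (Fin g × Fin d) (Fin h × Fin d) R :=
    Matrix.of fun p q => (F p.2 q.2 * X ^ (q.1 : ℕ)).coeff p.1 with hC
  set D : Matrix (Fin g × Fin d) (Fin g × Fin d) R :=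
    Matrix.of fun p q => (H p.2 q.2 * X ^ (q.1 : ℕ)).coeff p.1 with hD
  have hSyl : Syl F H g h = Matrix.fromBlocks A B C' D := by
    ext ρ κ
    rcases ρ with p | p <;> rcases κ with q | q <;> rfl
  set P : Matrix (Fin g × Fin d) (Fin h × Fin d) R :=
    Matrix.of fun l q => x (e.symm l) ^ (g + (q.1 : ℕ)) * v (e.symm l) q.2 with hP
  set E : Matrix (Fin g × Fin d) (Fin g × Fin d) R :=
    Matrix.of fun l q => x (e.symm l) ^ (q.1 : ℕ) * v (e.symm l) q.2 with hE
  have hA1 : A.det = 1 := by
    have hbt : Matrix.BlockTriangular A (fun p : Fin h × Fin d => p.1) := by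
      intro p q hqp
      rw [hA]
      simp only [Matrix.of_apply]
      have hlt : (q.1 : ℕ) < p.1 := hqp
      rw [coeff_mul_X_pow', if_pos (by omega), mon_coeff hF _ _ _ (by omega)]
      split_ifs
      · omega
      · rfl
      · rfl
    rw [hbt.det_fintype]
    refine Finset.prod_eq_one fun k _ => ?_
    have : A.toSquareBlock (fun p : Fin h × Fin d => p.1) k = 1 := by
      ext p q
      obtain ⟨⟨p1, p2⟩, hp⟩ := p
      obtain ⟨⟨q1, q2⟩, hq⟩ := q
      simp only at hp hq
      subst hp
      subst hq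
      rw [Matrix.toSquareBlock_def, Matrix.of_apply, hA, Matrix.of_apply]
      simp only
      rw [coeff_mul_X_pow', if_pos (by omega), Nat.add_sub_cancel, mon_coeff hF _ _ _ le_rfl,
        Matrix.one_apply]
      simp [Subtype.ext_iff, Prod.ext_iff]
    rw [this, Matrix.det_one]
  have hlow : P * A + E * C' = 0 := by
    ext l q
    rw [Matrix.add_apply, Matrix.mul_apply, Matrix.mul_apply, Fintype.sum_prod_type_right,
      Fintype.sum_prod_type_right, ← Finset.sum_add_distrib, Matrix.zero_apply]
    have h1 : ∑ j, v (e.symm l) j * (F j q.2 * X ^ (q.1 : ℕ)).eval (x (e.symm l)) = 0 := by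
      have h2 := hvF (e.symm l) q.2
      have h3 : ∑ j, v (e.symm l) j * (F j q.2 * X ^ (q.1 : ℕ)).eval (x (e.symm l)) =
          (∑ j, v (e.symm l) j * (F j q.2).eval (x (e.symm l))) * x (e.symm l) ^ (q.1 : ℕ) := by
        rw [Finset.sum_mul]
        exact Finset.sum_congr rfl fun j _ => by rw [eval_mul, eval_pow, eval_X]; ring
      rw [h3, h2, zero_mul]
    rw [← h1]
    refine Finset.sum_congr rfl fun j _ => ?_
    rw [eval_split _ g h _ (fun n hn => ?_), mul_add, Finset.mul_sum, Finset.mul_sum]
    · congr 1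
      · exact Finset.sum_congr rfl fun i _ => by rw [hP, hA]; simp only [Matrix.of_apply]; ring
      · exact Finset.sum_congr rfl fun i _ => by rw [hE, hC]; simp only [Matrix.of_apply]; ring
    · have hq := q.1.2
      rw [coeff_mul_X_pow', if_pos (by omega), mon_coeff hF _ _ _ (by omega)]
      split_ifs
      · omega
      · rfl
      · rfl
  have hlr : P * B + E * D = Matrix.diagonal (fun l => y (e.symm l)) * E := by
    ext l q
    rw [Matrix.add_apply, Matrix.mul_apply, Matrix.mul_apply, Fintype.sum_prod_type_right,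
      Fintype.sum_prod_type_right, ← Finset.sum_add_distrib, Matrix.diagonal_mul]
    have h1 : ∑ j, v (e.symm l) j * (H j q.2 * X ^ (q.1 : ℕ)).eval (x (e.symm l)) =
        y (e.symm l) * E l q := by
      have h2 := hvH (e.symm l) q.2
      have h3 : ∑ j, v (e.symm l) j * (H j q.2 * X ^ (q.1 : ℕ)).eval (x (e.symm l)) =
          (∑ j, v (e.symm l) j * (H j q.2).eval (x (e.symm l))) * x (e.symm l) ^ (q.1 : ℕ) := by
        rw [Finset.sum_mul]
        exact Finset.sum_congr rfl fun j _ => by rw [eval_mul, eval_pow, eval_X]; ring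
      rw [h3, h2, hE]
      simp only [Matrix.of_apply]
      ring
    rw [← h1]
    refine Finset.sum_congr rfl fun j _ => ?_
    rw [eval_split _ g h _ (fun n hn => ?_), mul_add, Finset.mul_sum, Finset.mul_sum]
    · congr 1
      · exact Finset.sum_congr rfl fun i _ => by rw [hP, hB]; simp only [Matrix.of_apply]; ring
      · exact Finset.sum_congr rfl fun i _ => by rw [hE, hD]; simp only [Matrix.of_apply]; ring
    · have hq := q.1.2
      have hh := hH j q.2
      rw [coeff_mul_X_pow', if_pos (by omega), coeff_eq_zero_of_natDegree_lt (by omega)]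
  have hE0 : E.det ≠ 0 := by
    intro hcon
    obtain ⟨c, hc0, hc⟩ := Matrix.exists_mulVec_eq_zero_iff.2 hcon
    refine hc0 (hN c fun l => ?_)
    have h1 := congrFun hc (e l)
    rw [Matrix.mulVec, dotProduct, Pi.zero_apply] at h1
    rw [← h1]
    refine Finset.sum_congr rfl fun κ _ => ?_
    rw [hE]
    simp only [Matrix.of_apply, Equiv.symm_apply_apply]
    ring
  have hmul : Matrix.fromBlocks 1 0 P E * Syl F H g h =
      Matrix.fromBlocks A B 0 (Matrix.diagonal (fun l => y (e.symm l)) * E) := by
    rw [hSyl, Matrix.fromBlocks_multiply, hlow, hlr]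
    simp
  have hdet := congrArg Matrix.det hmul
  rw [Matrix.det_mul, Matrix.det_fromBlocks_zero₁₂, Matrix.det_one, one_mul,
    Matrix.det_fromBlocks_zero₂₁, hA1, one_mul, Matrix.det_mul, Matrix.det_diagonal,
    mul_comm] at hdet
  have h5 := mul_right_cancel₀ hE0 hdet
  rw [h5]
  exact Equiv.prod_comp e.symm y

end Pool.Agent.H72C2
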